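import Pool.Agent.CTM.Asm

/-!
# MP_aaac81_gt: c-totally minimal locally solvable groups with a compact open subgroup are compact

The file of the problem lists as known: solvable groups, groups with a compact open NORMAL subgroup, Lie groups.
Here the compact open subgroup is not assumed normal.
-/

set_option autoImplicit false

namespace Pool.Agent.Results.MP_aaac81_gt.CompactOpenSubgroup

universe u

/-- A topological group `(G, t)` is minimal: every Hausdorff group topology `t'` on `G` which is coarser than `t`
(in Mathlib `t ≤ t'` means that `t'` is coarser than `t`) is equal to `t`. -/
def MinimalGroup (G : Type u) [Group G] [t : TopologicalSpace G] : Prop :=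
  ∀ t' : TopologicalSpace G, @IsTopologicalGroup G t' _ → @T2Space G t' → t ≤ t' → t' = t

/-- For every closed normal subgroup `N` of `G` the quotient `G ⧸ N`, with the quotient topology, is minimal. -/
def TotallyMinimalGroup (G : Type u) [Group G] [TopologicalSpace G] : Prop :=
  ∀ (N : Subgroup G) [N.Normal], IsClosed (N : Set G) → MinimalGroup (G ⧸ N)

/-- Every closed subgroup of `G`, with the induced topology, is totally minimal. -/
def CTotallyMinimalGroup (G : Type u) [Group G] [TopologicalSpace G] : Prop :=
  ∀ H : Subgroup G, IsClosed (H : Set G) → TotallyMinimalGroup H

/-- Every finitely generated subgroup of `G` is solvable. -/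
def LocallySolvableGroup (G : Type u) [Group G] : Prop :=
  ∀ H : Subgroup G, H.FG → Group.IsSolvable H

/-- Let `G` be a Hausdorff topological group which is c-totally minimal and whose underlying group is locally
solvable.  If `G` has a compact open subgroup `U` (not assumed normal) then `G` is compact. -/
theorem result {G : Type u} [Group G] [TopologicalSpace G] [IsTopologicalGroup G] [T2Space G]
    (hM : CTotallyMinimalGroup G) (hS : LocallySolvableGroup G)
    (U : Subgroup G) (hUo : IsOpen (U : Set G)) (hUc : IsCompact (U : Set G)) : CompactSpace G :=
  Pool.Agent.CTM.compact_of_ctm U hUo hUc hM hS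

end Pool.Agent.Results.MP_aaac81_gt.CompactOpenSubgroup
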